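import Pool.Agent.Lib.MP_9da1e3_co.Defs
import Pool.Agent.Lib.MP_9da1e3_co.Outcome
import Pool.Agent.Lib.MP_9da1e3_co.Left
import Pool.Agent.Lib.MP_9da1e3_co.Right3

/-!
MP_9da1e3_co, Q1. Parking functions of length `n` by maximal displacement: the sequence `a n l` is
increasing at the beginning (up to the index `√(n/2) - 1`) and decreasing at the end (over the last
`n ^ (2/3) / 31 ^ (1/3)` indices).
-/

namespace Pool.Agent.Results.MP_9da1e3_co.EndsMonotone

open Pool.Agent.MP_9da1e3_co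

private lemma left (n l : ℕ) (h : 2 * (l + 2) ^ 2 ≤ n) : a n l ≤ a n (l + 1) := by
  have hn : 1 ≤ n := by
    have : 0 < 2 * (l + 2) ^ 2 := by positivity
    omega
  have h1 : 2 * Fr (l + 1) n ≤ Fr (l + 2) n := double (l + 1) n (by omega) h
  have h2 := a_add hn l
  have h3 : Fr (l + 2) n = Fr (l + 1) n + a n (l + 1) := a_add hn (l + 1)
  omega

private lemma right (n l : ℕ) (hl : l < n) (h : 31 * (n - l) ^ 3 ≤ n ^ 2) :
    a n (l + 1) ≤ a n l := by
  obtain ⟨I, hI⟩ : ∃ I, n = l + 1 + I := ⟨n - l - 1, by omega⟩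
  have hh : n - l = I + 1 := by omega
  rw [hh] at h
  have hn : 1 ≤ n := by omega
  have hK : I + 1 ≤ l := by
    by_contra hcon
    have h1 : n ≤ 2 * (I + 1) := by omega
    have h2 : n ^ 2 ≤ (2 * (I + 1)) ^ 2 := Nat.pow_le_pow_left h1 2
    have h3 : (I + 1) ^ 3 = (I + 1) ^ 2 * (I + 1) := pow_succ _ _
    nlinarith [Nat.pos_of_ne_zero (pow_ne_zero 2 (Nat.succ_ne_zero I))]
  have hs0 := Pool.Agent.MP_9da1e3_co.sq_pos I
  have hss := Pool.Agent.MP_9da1e3_co.sq_sq I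
  have hbound : 5.5 * ((I : ℝ) * Pool.Agent.MP_9da1e3_co.sq I) ≤ (l : ℝ) + 1 := by
    obtain ⟨s, hs⟩ : ∃ s, s = Pool.Agent.MP_9da1e3_co.sq I := ⟨_, rfl⟩
    rw [← hs] at hs0 hss ⊢
    have hIr : (I : ℝ) = s * s - 1 := by linarith
    have hnr : (n : ℝ) = l + s * s := by
      rw [hI]
      push_cast
      linarith
    have hr : 31 * (s * s) ^ 3 ≤ (n : ℝ) ^ 2 := by
      rw [hss]
      exact_mod_cast h
    have h2 : 5.567 * s ^ 3 ≤ (n : ℝ) := by
      have : (5.567 * s ^ 3) ^ 2 ≤ (n : ℝ) ^ 2 := by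
        refine le_trans ?_ hr
        have h6 : 0 ≤ s ^ 6 := by positivity
        nlinarith
      exact le_of_sq_le_sq this (Nat.cast_nonneg n)
    have h3 : 0 ≤ s * (0.067 * s ^ 2 - s + 5.5) := by
      apply mul_nonneg hs0.le
      nlinarith [sq_nonneg (s - 7.46)]
    rw [hIr]
    have h4 : (l : ℝ) = n - s * s := by linarith
    rw [h4]
    nlinarith
  have hD := DD_nonpos l I hK hbound
  unfold DD f at hD
  rw [← hI] at hD
  have hf : (0 : ℝ) < (n.factorial : ℝ) := by positivity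
  have hD2 : (Fr (l + 2) n : ℝ) - 2 * Fr (l + 1) n + Fr l n ≤ 0 := by
    have e : (Fr (l + 2) n : ℝ) / n.factorial - 2 * (Fr (l + 1) n / n.factorial)
        + Fr l n / n.factorial = ((Fr (l + 2) n : ℝ) - 2 * Fr (l + 1) n + Fr l n) / n.factorial := by
      ring
    rw [e, div_le_iff₀ hf, zero_mul] at hD
    exact hD
  have h2 := a_add hn l
  have h3 : Fr (l + 2) n = Fr (l + 1) n + a n (l + 1) := a_add hn (l + 1)
  have h4 : (Fr (l + 2) n : ℝ) + Fr l n ≤ 2 * Fr (l + 1) n := by linarith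
  have h5 : Fr (l + 2) n + Fr l n ≤ 2 * Fr (l + 1) n := by exact_mod_cast h4
  omega

theorem result :
    (∀ n l : ℕ, 2 * (l + 2) ^ 2 ≤ n → a n l ≤ a n (l + 1)) ∧
    (∀ n l : ℕ, l < n → 31 * (n - l) ^ 3 ≤ n ^ 2 → a n (l + 1) ≤ a n l) :=
  ⟨left, right⟩

end Pool.Agent.Results.MP_9da1e3_co.EndsMonotone
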