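import Pool.Agent.Lib.MP_9da1e3_co.Defs
import Pool.Agent.Lib.MP_9da1e3_co.Big9
import Pool.Agent.Lib.MP_9da1e3_co.Sh8

/-!
MP_9da1e3_co, Q1. Parking functions of length `n` by maximal displacement: the order of magnitude of
the sequence `a n l` (from above for all `l`, two-sided for `l ≥ n/2`), the place of its maximum,
unimodality up to a constant factor in the upper half, and exact increase for `l` from `n / 2` to
`n - C ^ (1/3) n ^ (2/3)`.
-/

namespace Pool.Agent.Results.MP_9da1e3_co.ModeLocation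

open Pool.Agent.MP_9da1e3_co

theorem result : ∃ c C : ℝ, 0 < c ∧ 0 < C ∧
    (∀ n l : ℕ, l < n → (a n l : ℝ) ≤
      C * (n / (((n : ℝ) - l) ^ 2 * √((n : ℝ) - l))) * ((n : ℝ) + 1) ^ (n - 1)) ∧
    (∀ n l : ℕ, l < n → n ≤ 2 * l →
      c * min (√((n : ℝ) - l) / n) (n / (((n : ℝ) - l) ^ 2 * √((n : ℝ) - l))) *
        ((n : ℝ) + 1) ^ (n - 1) ≤ a n l ∧
      (a n l : ℝ) ≤
      C * min (√((n : ℝ) - l) / n) (n / (((n : ℝ) - l) ^ 2 * √((n : ℝ) - l))) *
        ((n : ℝ) + 1) ^ (n - 1)) ∧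
    (∀ n l : ℕ, l < n → (∀ k < n, a n k ≤ a n l) →
      c * (n : ℝ) ^ 2 ≤ ((n : ℝ) - l) ^ 3 ∧ ((n : ℝ) - l) ^ 3 ≤ C * (n : ℝ) ^ 2) ∧
    (∀ n i j k : ℕ, i ≤ j → j ≤ k → k < n → n ≤ 2 * j →
      c * min (a n i : ℝ) (a n k) ≤ a n j) ∧
    (∀ n l : ℕ, l < n → n ≤ 2 * l → C * (n : ℝ) ^ 2 ≤ ((n : ℝ) - l) ^ 3 →
      a n l ≤ a n (l + 1)) := by
  obtain ⟨C₁, hC1, up2'⟩ := up_all
  obtain ⟨c, hc, hc1, low⟩ := low_all
  obtain ⟨C, hC⟩ : ∃ C : ℝ, C = max C₁ 11 := ⟨_, rfl⟩
  have hCC : C₁ ≤ C := by rw [hC]; exact le_max_left _ _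
  have hC11 : 11 ≤ C := by rw [hC]; exact le_max_right _ _
  have hC0 : 0 < C := by linarith
  have up2 : ∀ n l : ℕ, l < n → RR n l ≤ C * p2 n l := fun n l h =>
    (up2' n l h).trans (mul_le_mul_of_nonneg_right hCC (p2_pos n l h).le)
  have up1 : ∀ n l : ℕ, l < n → n ≤ 2 * l → RR n l ≤ C * p1 n l := fun n l h h2 =>
    (up_p1 n l h h2).trans (mul_le_mul_of_nonneg_right hC11 (p1_pos n l h).le)
  obtain ⟨d, hd, hmode⟩ := mode hc hc1 (by linarith) up2 up1 low
  have hweak := weak_unimodal hc (by linarith : 1 ≤ C) up2 up1 low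
  obtain ⟨K, hK⟩ : ∃ K : ℝ, K = max (1 / d) (10 ^ 201) := ⟨_, rfl⟩
  have hKd : 1 / d ≤ K := by rw [hK]; exact le_max_left _ _
  have hK201 : 10 ^ 201 ≤ K := by rw [hK]; exact le_max_right _ _
  refine ⟨min d (c / C), max C K, lt_min hd (by positivity), lt_max_of_lt_left hC0,
    ?_, ?_, ?_, ?_, ?_⟩
  · intro n l hl
    rw [a_eq n l (by omega)]
    apply mul_le_mul_of_nonneg_right _ (by positivity)
    refine (up2 n l hl).trans ?_
    exact mul_le_mul_of_nonneg_right (le_max_left _ _) (p2_pos n l hl).le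
  · intro n l hl h2
    rw [a_eq n l (by omega)]
    have hm : 0 < min (p1 n l) (p2 n l) := lt_min (p1_pos n l hl) (p2_pos n l hl)
    constructor
    · apply mul_le_mul_of_nonneg_right _ (by positivity)
      refine le_trans ?_ (low n l hl h2)
      apply mul_le_mul_of_nonneg_right _ hm.le
      refine (min_le_right _ _).trans ?_
      rw [div_le_iff₀ hC0]
      nlinarith
    · apply mul_le_mul_of_nonneg_right _ (by positivity)
      have h3 : RR n l ≤ C * min (p1 n l) (p2 n l) := by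
        rw [mul_min_of_nonneg _ _ hC0.le]
        exact le_min (up1 n l hl h2) (up2 n l hl)
      refine h3.trans ?_
      exact mul_le_mul_of_nonneg_right (le_max_left _ _) hm.le
  · intro n l hl hmax
    obtain ⟨h1, h2⟩ := hmode n l hl hmax
    constructor
    · refine le_trans ?_ h1
      exact mul_le_mul_of_nonneg_right (min_le_left _ _) (by positivity)
    · have h3 : ((n : ℝ) - l) ^ 3 ≤ 1 / d * (n : ℝ) ^ 2 := by
        rw [one_div_mul_eq_div, le_div_iff₀ hd]
        linarith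
      refine h3.trans ?_
      exact mul_le_mul_of_nonneg_right (hKd.trans (le_max_right _ _)) (by positivity)
  · intro n i j k hij hjk hk hj
    have h1 := hweak n i j k hij hjk hk hj
    have hT : (0 : ℝ) < ((n : ℝ) + 1) ^ (n - 1) := by positivity
    rw [a_eq n i (by omega), a_eq n j (by omega), a_eq n k (by omega), ← min_mul_of_nonneg _ _ hT.le,
      ← mul_assoc]
    apply mul_le_mul_of_nonneg_right _ hT.le
    refine le_trans ?_ h1
    exact mul_le_mul_of_nonneg_right (min_le_right _ _) (le_min (RR_nonneg n i) (RR_nonneg n k))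
  · intro n l hl h2 h1
    have h3 : 10 ^ 201 ≤ max C K := hK201.trans (le_max_right _ _)
    apply increasing3 n l hl _ h2
    refine le_trans ?_ h1
    exact mul_le_mul_of_nonneg_right h3 (by positivity)

end Pool.Agent.Results.MP_9da1e3_co.ModeLocation
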