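import Pool.Agent.Lib.MP_9da1e3_co.Defs
import Pool.Agent.Lib.MP_9da1e3_co.V2_Final

/-!
MP_9da1e3_co, Q1. Parking functions of length `n` by maximal displacement: for every `n ≥ 1`
the sequence `a n 0, …, a n (n - 1)` is unimodal, and strictly decreasing after its maximum.
-/

namespace Pool.Agent.Results.MP_9da1e3_co.Unimodal

open Pool.Agent.MP_9da1e3_co

theorem result : ∀ n : ℕ, 1 ≤ n → ∃ m : ℕ, m < n ∧
    (∀ l, l < m → a n l ≤ a n (l + 1)) ∧
    (∀ l, m ≤ l → l < n → a n (l + 1) < a n l) :=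
  unimodal_all

end Pool.Agent.Results.MP_9da1e3_co.Unimodal
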